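import Mathlib

namespace Pool.Agent.Results.MP_4601b9_an.Counter

open MeasureTheory Filter Topology Set Real
open scoped ContDiff

/-- Test functions. -/
def Test (η : ℝ → ℝ) : Prop := ContDiff ℝ ∞ η ∧ HasCompactSupport η

/-- `g` is the distributional derivative of `φ`. -/
def WeakDeriv (φ g : ℝ → ℝ) : Prop :=
  ∀ η, Test η → ∫ x, φ x * deriv η x = -∫ x, g x * η x

/-- The equation (E) in the sense of distributions off `0`, where `g` is the derivative of `φ`. -/
def Solves (a φ g : ℝ → ℝ) : Prop :=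
  ∀ η, Test η → (0 : ℝ) ∉ tsupport η →
    ∫ x, a x * g x * deriv η x = ∫ x, a x * (sin (φ x) * cos (φ x)) * η x

noncomputable def glue (c : ℝ) (f g : ℝ → ℝ) (x : ℝ) : ℝ := if x ≤ c then f x else g x

lemma glue_deriv {c : ℝ} {f g f' g' : ℝ → ℝ} (hf : ∀ x, HasDerivAt f (f' x) x)
    (hg : ∀ x, HasDerivAt g (g' x) x) (h0 : f c = g c) (h1 : f' c = g' c) (x : ℝ) :
    HasDerivAt (glue c f g) (glue c f' g' x) x := by
  rcases lt_trichotomy x c with h | rfl | h
  · rw [glue, if_pos h.le]
    refine (hf x).congr_of_eventuallyEq ?_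
    filter_upwards [Iio_mem_nhds h] with y hy using if_pos (le_of_lt hy)
  · rw [glue, if_pos le_rfl, ← hasDerivWithinAt_univ, ← Iic_union_Ici (a := x)]
    have e : glue x f g x = f x := if_pos le_rfl
    refine HasDerivWithinAt.union
      ((hf x).hasDerivWithinAt.congr (f₁ := glue x f g) (fun y hy => if_pos hy) e)
      ((h1 ▸ hg x).hasDerivWithinAt.congr (f₁ := glue x f g) (fun y hy => ?_) (e.trans h0))
    rcases (show x ≤ y from hy).eq_or_lt with rfl | h
    · rw [glue, if_pos le_rfl, h0]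
    · exact if_neg h.not_ge
  · rw [glue, if_neg h.not_ge]
    refine (hg x).congr_of_eventuallyEq ?_
    filter_upwards [Ioi_mem_nhds h] with y hy using if_neg (not_le.2 hy)

lemma glue_cont {c : ℝ} {f g : ℝ → ℝ} (hf : Continuous f) (hg : Continuous g) (h : f c = g c) :
    Continuous (glue c f g) :=
  Continuous.if_le hf hg continuous_id continuous_const fun x hx => by rw [hx, h]

noncomputable def tri (f g h : ℝ → ℝ) : ℝ → ℝ := glue (-π) f (glue π g h)

lemma tri_deriv {f g h f' g' h' : ℝ → ℝ} (hf : ∀ x, HasDerivAt f (f' x) x)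
    (hg : ∀ x, HasDerivAt g (g' x) x) (hh : ∀ x, HasDerivAt h (h' x) x)
    (a0 : f (-π) = g (-π)) (a1 : f' (-π) = g' (-π)) (b0 : g π = h π) (b1 : g' π = h' π) (x : ℝ) :
    HasDerivAt (tri f g h) (tri f' g' h' x) x :=
  glue_deriv hf (glue_deriv hg hh b0 b1) (by rw [glue, if_pos (by linarith [pi_pos]), a0])
    (by rw [glue, if_pos (by linarith [pi_pos]), a1]) x

lemma tri_cont {f g h : ℝ → ℝ} (hf : Continuous f) (hg : Continuous g) (hh : Continuous h)
    (a0 : f (-π) = g (-π)) (b0 : g π = h π) : Continuous (tri f g h) :=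
  glue_cont hf (glue_cont hg hh b0) (by rw [glue, if_pos (by linarith [pi_pos]), a0])

noncomputable def ph : ℝ → ℝ := tri (fun x => arctan (sinh (x + π))) (fun x => arctan (-sin x))
  fun x => arctan (sinh (x + -π))

noncomputable def gg : ℝ → ℝ := tri (fun x => (cosh (x + π))⁻¹)
  (fun x => -cos x / (1 + sin x ^ 2)) fun x => (cosh (x + -π))⁻¹

noncomputable def aa : ℝ → ℝ := tri (fun _ => 1) (fun x => 1 + sin x ^ 2) fun _ => 1

noncomputable def pp : ℝ → ℝ := tri (fun x => (cosh (x + π))⁻¹) (fun x => -cos x)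
  fun x => (cosh (x + -π))⁻¹

noncomputable def qq : ℝ → ℝ := tri (fun x => -sinh (x + π) / cosh (x + π) ^ 2) sin
  fun x => -sinh (x + -π) / cosh (x + -π) ^ 2

lemma d1 (c x : ℝ) : HasDerivAt (fun x => arctan (sinh (x + c))) (cosh (x + c))⁻¹ x := by
  have h := ((hasDerivAt_id x).add_const c).sinh.arctan
  have h2 := (cosh_pos (x + c)).ne'
  refine h.congr_deriv ?_
  simp only [id, mul_one]
  rw [add_comm, ← cosh_sq]
  field_simp

lemma d2 (c x : ℝ) : HasDerivAt (fun x => (cosh (x + c))⁻¹)
    (-sinh (x + c) / cosh (x + c) ^ 2) x := by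
  exact (((hasDerivAt_id x).add_const c).cosh.inv (cosh_pos _).ne').congr_deriv (by simp)

lemma ph_deriv (x : ℝ) : HasDerivAt ph (gg x) x := by
  refine tri_deriv (d1 π) (fun x => ?_) (d1 (-π)) (by simp) (by simp) (by simp) (by simp) x
  refine (hasDerivAt_sin x).neg.arctan.congr_deriv ?_
  simp only [Pi.neg_apply, even_two, Even.neg_pow]
  ring

lemma pp_deriv (x : ℝ) : HasDerivAt pp (qq x) x :=
  tri_deriv (d2 π) (fun x => (hasDerivAt_cos x).neg.congr_deriv (neg_neg _)) (d2 (-π)) (by simp) (by simp)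
    (by simp) (by simp) x

lemma ci (c : ℝ) : Continuous fun x => (cosh (x + c))⁻¹ :=
  continuous_iff_continuousAt.2 fun x => (d2 c x).continuousAt

lemma gg_cont : Continuous gg :=
  tri_cont (ci π) (Continuous.div (by fun_prop) (by fun_prop) fun x => by positivity) (ci (-π))
    (by simp) (by simp)

lemma qq_cont : Continuous qq :=
  tri_cont (Continuous.div (by fun_prop) (by fun_prop) fun x => (pow_pos (cosh_pos _) 2).ne')
    continuous_sin
    (Continuous.div (by fun_prop) (by fun_prop) fun x => (pow_pos (cosh_pos _) 2).ne')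
    (by simp) (by simp)

lemma ag (x : ℝ) : aa x * gg x = pp x := by
  simp only [aa, gg, pp, tri, glue]
  split_ifs
  · simp
  · field_simp
  · simp

lemma sc (t : ℝ) : sin (arctan t) * cos (arctan t) = t / (1 + t ^ 2) := by
  rw [sin_arctan, cos_arctan, div_mul_div_comm, mul_one, mul_self_sqrt (by positivity)]

lemma aq (x : ℝ) : aa x * (sin (ph x) * cos (ph x)) = -qq x := by
  simp only [aa, ph, qq, tri, glue]
  split_ifs
  · rw [sc, add_comm 1, ← cosh_sq]; ring
  · rw [sc, neg_sq]; field_simp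
  · rw [sc, add_comm 1, ← cosh_sq]; ring

lemma ibp {u u' η : ℝ → ℝ} (hu : ∀ x, HasDerivAt u (u' x) x) (hc : Continuous u') (hη : Test η) :
    ∫ x, u x * deriv η x = -∫ x, u' x * η x := by
  have h0 : Continuous u := continuous_iff_continuousAt.2 fun x => (hu x).continuousAt
  have h1 : Continuous (deriv η) := hη.1.continuous_deriv (by simp)
  exact integral_mul_deriv_eq_deriv_mul_of_integrable (fun x _ => hu x)
    (fun x _ => (hη.1.differentiable (by simp) x).hasDerivAt)
    ((h0.mul h1).integrable_of_hasCompactSupport hη.2.deriv.mul_left)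
    ((hc.mul hη.1.continuous).integrable_of_hasCompactSupport hη.2.mul_left)
    ((h0.mul hη.1.continuous).integrable_of_hasCompactSupport hη.2.mul_left)

lemma sech_le {x c : ℝ} (hc : c ^ 2 ≤ 16) : (cosh (x + c))⁻¹ ^ 2 ≤ 33 * (1 + x ^ 2)⁻¹ := by
  have h1 : (x + c) ^ 2 ≤ sinh (x + c) ^ 2 := by
    rw [sq_le_sq, abs_sinh]
    exact self_le_sinh_iff.2 (abs_nonneg _)
  rw [inv_pow, cosh_sq, ← div_eq_mul_inv, inv_eq_one_div, div_le_div_iff₀ (by positivity)
    (by positivity)]
  nlinarith [sq_nonneg (x + 2 * c), sq_nonneg (x + c)]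

lemma gg_mem : MemLp gg 2 volume := by
  rw [memLp_two_iff_integrable_sq gg_cont.aestronglyMeasurable]
  refine (integrable_inv_one_add_sq.const_mul 33).mono' (gg_cont.pow 2).aestronglyMeasurable
    (Eventually.of_forall fun x => ?_)
  have hp : π ^ 2 ≤ 16 := by nlinarith [pi_pos, pi_le_four]
  rw [Real.norm_of_nonneg (sq_nonneg _)]
  simp only [gg, tri, glue]
  split_ifs with h1 h2
  · exact sech_le hp
  · have a : x ^ 2 ≤ 16 := by nlinarith [pi_pos, pi_le_four]
    have b : (-cos x / (1 + sin x ^ 2)) ^ 2 ≤ 1 := by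
      rw [div_pow, div_le_one (by positivity)]
      nlinarith [sin_sq_add_cos_sq x, sq_nonneg (sin x), sq_nonneg (sin x ^ 2)]
    refine b.trans ?_
    rw [← div_eq_mul_inv, le_div_iff₀ (by positivity)]
    linarith
  · exact sech_le (by rwa [neg_sq])

theorem result : ∃ a φ g : ℝ → ℝ, Continuous a ∧ (∀ x, 1 ≤ a x ∧ a x ≤ 2) ∧ Continuous φ ∧
    MemLp g 2 volume ∧ WeakDeriv φ g ∧ Solves a φ g ∧ φ 0 = 0 ∧
    Tendsto φ atTop (𝓝 (π / 2)) ∧ Tendsto φ atBot (𝓝 (-(π / 2))) ∧ ∃ x, 0 < x ∧ φ x < 0 := by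
  have hp := pi_pos
  refine ⟨aa, ph, gg, tri_cont continuous_const (by fun_prop) continuous_const (by simp) (by simp),
    fun x => ?_, continuous_iff_continuousAt.2 fun x => (ph_deriv x).continuousAt, gg_mem,
    fun η hη => ibp ph_deriv gg_cont hη, fun η hη _ => ?_, ?_, ?_, ?_, π / 2, by positivity, ?_⟩
  · simp only [aa, tri, glue]
    split_ifs
    · norm_num
    · exact ⟨by nlinarith [sq_nonneg (sin x)], by linarith [sin_sq_le_one x]⟩
    · norm_num
  · simp only [ag, aq, neg_mul, integral_neg]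
    exact ibp pp_deriv qq_cont hη
  · simp [ph, tri, glue, hp.le, hp.not_ge]
  · have h1 : Tendsto (fun x => sinh (x + -π)) atTop atTop := by
      refine tendsto_atTop_mono' _ ?_ (tendsto_atTop_add_const_right _ (-π) tendsto_id)
      filter_upwards [eventually_ge_atTop π] with x hx using
        self_le_sinh_iff.2 (show 0 ≤ x + -π by linarith)
    refine ((tendsto_arctan_atTop.mono_right nhdsWithin_le_nhds).comp h1).congr' ?_
    filter_upwards [eventually_gt_atTop π] with x hx
    simp only [ph, tri, glue, Function.comp]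
    rw [if_neg (by linarith), if_neg (by linarith)]
  · have h1 : Tendsto (fun x => sinh (x + π)) atBot atBot := by
      refine tendsto_atBot_mono' _ ?_ (tendsto_atBot_add_const_right _ π tendsto_id)
      filter_upwards [eventually_le_atBot (-π)] with x hx using
        sinh_le_self_iff.2 (show x + π ≤ 0 by linarith)
    refine ((tendsto_arctan_atBot.mono_right nhdsWithin_le_nhds).comp h1).congr' ?_
    filter_upwards [eventually_le_atBot (-π)] with x hx
    simp only [ph, tri, glue, Function.comp]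
    rw [if_pos hx]
  · simp only [ph, tri, glue]
    rw [if_neg (by linarith), if_pos (by linarith)]
    simp [hp]

end Pool.Agent.Results.MP_4601b9_an.Counter
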